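import Mathlib

/-! # Detours of graphs and the minimum degree: definitions (MP_ce2317_co) -/

namespace Pool.Agent.Helper52.DD

/-- the vertex sequence of a path of `G` -/
def IsPathSeq {V : Type} (G : SimpleGraph V) (l : List V) : Prop :=
  l ≠ [] ∧ l.Nodup ∧ l.IsChain G.Adj

/-- the vertex sequence of a detour (longest path) of `G` -/
def IsDetour {V : Type} (G : SimpleGraph V) (l : List V) : Prop :=
  IsPathSeq G l ∧ ∀ l' : List V, IsPathSeq G l' → l'.length ≤ l.length

/-- the number of detours, a path being identified with its reverse -/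
noncomputable def N {V : Type} (G : SimpleGraph V) : ℕ :=
  {q : Set (List V) | ∃ l, IsDetour G l ∧ q = {l, l.reverse}}.ncard

/-- the minimum degree of `G` is `k` -/
def MinDeg {V : Type} (G : SimpleGraph V) (k : ℕ) : Prop :=
  (∀ v, k ≤ (G.neighborSet v).ncard) ∧ ∃ v, (G.neighborSet v).ncard = k

/-- the odd values of the number of detours over the connected graphs of order `n` and minimum
degree `k` -/
def oddValues (k n : ℕ) : Set ℕ :=
  {m | ∃ G : SimpleGraph (Fin n), G.Connected ∧ MinDeg G k ∧ N G = m ∧ Odd m}

/-- the least odd number of detours -/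
noncomputable def b (k n : ℕ) : ℕ := sInf (oddValues k n)

end Pool.Agent.Helper52.DD
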