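import Pool.Agent.Helper52.DD.Defs
import Pool.Agent.Helper52.LP.W
import Pool.Agent.Helper52.LP.Y
import Pool.Agent.Helper52.LP.Z

/-! # Detours of graphs in the Dirac range: proof (MP_ce2317_co) -/

namespace Pool.Agent.Helper52.DD.Dirac

open Pool.Agent.Helper52.LP

section proof

variable {V : Type} [Fintype V] [DecidableEq V]

theorem ncard_nbr (G : SimpleGraph V) (v : V) : (G.neighborSet v).ncard = dg G v := by
  classical
  unfold dg
  rw [← Set.ncard_coe_finset]
  congr 1
  ext w
  simp

theorem detour_iff (G : SimpleGraph V) (h1 : 1 ≤ Fintype.card V) (hne : (HL G).Nonempty)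
    (l : List V) : IsDetour G l ↔ l ∈ HL G := by
  obtain ⟨l0, h0⟩ := hne
  constructor
  · rintro ⟨⟨g1, g2, g3⟩, g4⟩
    refine ⟨g2, g3, le_antisymm (nodup_length_le g2) ?_⟩
    have := g4 l0 ⟨?_, h0.1, h0.2.1⟩
    · rwa [h0.2.2] at this
    · intro h
      have := h0.2.2
      rw [h] at this
      simp only [List.length_nil] at this
      omega
  · rintro ⟨g1, g2, g3⟩
    refine ⟨⟨?_, g1, g2⟩, ?_⟩
    · intro h
      rw [h] at g3
      simp only [List.length_nil] at g3
      omega
    · rintro l' ⟨_, g5, _⟩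
      rw [g3]; exact nodup_length_le g5

theorem two_mul_N (G : SimpleGraph V) (h2 : 2 ≤ Fintype.card V) (hne : (HL G).Nonempty) :
    2 * N G = (HL G).ncard := by
  classical
  have hfin := HL_finite G
  set S : Finset (List V) := hfin.toFinset with hS
  have hmem : ∀ l, l ∈ S ↔ l ∈ HL G := fun l => hfin.mem_toFinset
  have hrev : ∀ l, l ∈ S → l.reverse ∈ S := by
    intro l hl
    rw [hmem] at hl ⊢
    refine ⟨by simpa using hl.1, chain_reverse hl.2.1, by simpa using hl.2.2⟩
  have hne' : ∀ l, l ∈ S → l.reverse ≠ l := by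
    intro l hl h
    rw [hmem] at hl
    obtain ⟨g1, g2, g3⟩ := hl
    have h1 : l[0]'(by omega) = l[l.length - 1]'(by omega) := by
      have e := List.getElem_reverse (l := l) (i := 0) (by rw [List.length_reverse]; omega)
      simp only [h, Nat.sub_zero] at e
      exact e
    have := (List.Nodup.getElem_inj_iff g1).1 h1
    omega
  have hN : N G = (S.image fun l => ({l, l.reverse} : Set (List V))).card := by
    unfold N
    rw [← Set.ncard_coe_finset]
    congr 1
    ext q
    simp only [Set.mem_setOf_eq, Finset.coe_image, Set.mem_image, Finset.mem_coe, hmem,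
      detour_iff G (by omega) hne]
    constructor
    · rintro ⟨l, hl, rfl⟩; exact ⟨l, hl, rfl⟩
    · rintro ⟨l, hl, rfl⟩; exact ⟨l, hl, rfl⟩
  have hSc : (HL G).ncard = S.card := by
    rw [← Set.ncard_coe_finset, hS, Set.Finite.coe_toFinset]
  rw [hN, hSc, Finset.card_eq_sum_card_fiberwise (s := S)
    (f := fun l => ({l, l.reverse} : Set (List V)))
    (t := S.image fun l => ({l, l.reverse} : Set (List V)))
    (fun l hl => Finset.mem_coe.2 (Finset.mem_image_of_mem _ (Finset.mem_coe.1 hl))),
    Finset.sum_const_nat (m := 2)]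
  · ring
  · intro q hq
    obtain ⟨l, hl, rfl⟩ := Finset.mem_image.1 hq
    have : (S.filter fun l' => ({l', l'.reverse} : Set (List V)) = {l, l.reverse})
        = {l, l.reverse} := by
      ext l'
      rw [Finset.mem_filter, Finset.mem_insert, Finset.mem_singleton]
      constructor
      · rintro ⟨_, h⟩
        have : l' ∈ ({l', l'.reverse} : Set (List V)) := Set.mem_insert _ _
        rw [h] at this
        simpa using this
      · rintro (rfl | rfl)
        · exact ⟨hl, rfl⟩
        · refine ⟨hrev l hl, ?_⟩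
          rw [List.reverse_reverse, Set.pair_comm]
    rw [this, Finset.card_pair (hne' l hl).symm]

theorem connected_of_HL (G : SimpleGraph V) (h1 : 1 ≤ Fintype.card V) (hne : (HL G).Nonempty) :
    G.Connected := by
  obtain ⟨l, g1, g2, g3⟩ := hne
  have hmem : ∀ v, v ∈ l := by
    intro v
    have : l.toFinset = Finset.univ := by
      apply Finset.eq_univ_of_card
      rw [List.toFinset_card_of_nodup g1, g3]
    have hv := Finset.mem_univ v
    rw [← this, List.mem_toFinset] at hv
    exact hv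
  have h0 : 0 < l.length := by omega
  have hreach : ∀ i (hi : i < l.length), G.Reachable l[0] l[i] := by
    intro i
    induction i with
    | zero => intro _; exact SimpleGraph.Reachable.refl _
    | succ i ih =>
      intro hi
      exact (ih (by omega)).trans ((List.isChain_iff_getElem.1 g2) i hi).reachable
  have : Nonempty V := ⟨l[0]⟩
  refine ⟨fun u v => ?_⟩
  obtain ⟨i, hi, rfl⟩ := List.mem_iff_getElem.1 (hmem u)
  obtain ⟨j, hj, rfl⟩ := List.mem_iff_getElem.1 (hmem v)
  exact (hreach i hi).symm.trans (hreach j hj)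

/-- from a graph with an odd number of detours to an element of `oddValues` -/
theorem mem_oddValues {n k : ℕ} (h3 : 3 ≤ n) (G : SimpleGraph (Fin n)) (hδ : ∀ v, k ≤ dg G v)
    (hv : ∃ v, dg G v = k) (hG : (HL G).ncard % 4 = 2) :
    N G ∈ oddValues k n ∧ 2 * N G = (HL G).ncard := by
  have hcard : Fintype.card (Fin n) = n := Fintype.card_fin n
  have hHL : (HL G).Nonempty := by
    rw [Set.nonempty_iff_ne_empty]
    intro h
    rw [h, Set.ncard_empty] at hG
    omega
  have hN := two_mul_N G (by omega) hHL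
  obtain ⟨v, hv⟩ := hv
  refine ⟨⟨G, connected_of_HL G (by omega) hHL, ⟨fun v => ?_, v, ?_⟩, rfl, ?_⟩, hN⟩
  · rw [ncard_nbr]; exact hδ v
  · rw [ncard_nbr]; exact hv
  · rw [Nat.odd_iff]; omega

end proof

theorem value9 : 93 ∈ oddValues 3 9 := by
  have h1 := dg_dec adj9 G9 (fun _ _ => Iff.rfl)
  have h2 := ncard_pth adj9 G9 (fun _ _ => Iff.rfl) pth9.2
  rw [pth9.1] at h2
  obtain ⟨h3, h4⟩ := mem_oddValues (k := 3) (by norm_num) G9
    (fun v => by rw [h1]; revert v; decide +kernel)
    ⟨0, by rw [h1]; decide +kernel⟩ (by rw [h2])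
  have h5 : N G9 = 93 := by omega
  rwa [h5] at h3

theorem value10 : 143 ∈ oddValues 3 10 := by
  have h1 := dg_dec adj10 G10 (fun _ _ => Iff.rfl)
  have h2 := ncard_pth adj10 G10 (fun _ _ => Iff.rfl) pth10.2
  rw [pth10.1] at h2
  obtain ⟨h3, h4⟩ := mem_oddValues (k := 3) (by norm_num) G10
    (fun v => by rw [h1]; revert v; decide +kernel)
    ⟨0, by rw [h1]; decide +kernel⟩ (by rw [h2])
  have h5 : N G10 = 143 := by omega
  rwa [h5] at h3

theorem dirac (n k k' : ℕ) (hk : 1 ≤ k) (hkk : k < k') (hn : n ≤ 2 * k')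
    (hne : (oddValues k' n).Nonempty) : (oddValues k n).Nonempty ∧ b k n < b k' n := by
  classical
  obtain ⟨G, hconn, ⟨hδ, v0, hv0⟩, hNG, hodd⟩ := Nat.sInf_mem hne
  have hcard : Fintype.card (Fin n) = n := Fintype.card_fin n
  have hdg : ∀ v, k' ≤ dg G v := fun v => by rw [← ncard_nbr]; exact hδ v
  have h3 : 3 ≤ Fintype.card (Fin n) := by
    have h1 : dg G v0 < Fintype.card (Fin n) := by
      unfold dg
      rw [← Finset.card_univ]
      refine Finset.card_lt_card ?_
      rw [Finset.ssubset_univ_iff]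
      intro h
      have := Finset.mem_univ v0
      rw [← h, Finset.mem_filter] at this
      exact this.2.ne rfl
    have h2 := hdg v0
    omega
  have hdirac : ∀ v, Fintype.card (Fin n) ≤ 2 * dg G v := fun v => by
    have := hdg v
    omega
  -- `G` has an edge, hence a Hamilton path
  have hHL : (HL G).Nonempty := by
    have h1 : 0 < dg G v0 := by have := hdg v0; omega
    obtain ⟨w, hw⟩ := Finset.card_pos.1 h1
    rw [Finset.mem_filter] at hw
    obtain ⟨l, hl, _⟩ := exists_ham_through G hdirac hw.2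
    exact ⟨l, hl⟩
  have hN0 := two_mul_N G (by omega) hHL
  have h5 : b k' n = N G := hNG.symm
  have hHP : (HP G).card % 4 = 2 := by
    rw [← ncard_HL G h3, ← hN0, hNG]
    obtain ⟨r, hr⟩ := hodd
    omega
  by_cases hex : k = 3 ∧ k' = 5 ∧ 9 ≤ Fintype.card (Fin n)
  · obtain ⟨rfl, rfl, h9⟩ := hex
    have hmany := many_ham G (by omega) hdg hHL
    rw [hcard] at hmany h9
    have hn' : n = 9 ∨ n = 10 := by omega
    rcases hn' with rfl | rfl
    · refine ⟨⟨_, value9⟩, ?_⟩
      have h4 : b 3 9 ≤ 93 := Nat.sInf_le value9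
      omega
    · refine ⟨⟨_, value10⟩, ?_⟩
      have h4 : b 3 10 ≤ 143 := Nat.sInf_le value10
      omega
  · obtain ⟨G2, hle, hδ2, ⟨v2, hv2⟩, hG2⟩ := down G h3 k k' hk hkk (by omega) hex hHP hdg
    rw [← ncard_HL G2 h3] at hG2
    obtain ⟨hmem, hN2⟩ := mem_oddValues (by omega) G2 hδ2 ⟨v2, hv2⟩ hG2
    have hstrict : (HL G2).ncard < (HL G).ncard := by
      refine Set.ncard_lt_ncard ?_ (HL_finite G)
      refine ⟨HL_mono hle, fun hsub => ?_⟩
      obtain ⟨a, c, hac, hac'⟩ : ∃ a c, G.Adj a c ∧ ¬ G2.Adj a c := by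
        by_contra hc
        push Not at hc
        have h6 : dg G v2 ≤ dg G2 v2 := dg_mono (fun x hx => hc v2 x hx)
        have h7 := hdg v2
        omega
      obtain ⟨l, hl, hcon⟩ := exists_ham_through G hdirac hac
      exact hac' (hcon.adj (hsub hl).2.1)
    refine ⟨⟨_, hmem⟩, ?_⟩
    have h4 : b k n ≤ N G2 := Nat.sInf_le hmem
    omega

end Pool.Agent.Helper52.DD.Dirac
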