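import Pool.Agent.Helper52.DD.Defs
import Pool.Agent.Helper52.DT.Final

/-! # Detours of graphs of all orders: proof (MP_ce2317_co) -/

namespace Pool.Agent.Helper52.DD.Orders

open Pool.Agent.Helper52.LP

section proof

variable {V : Type} [Fintype V] [DecidableEq V]

theorem ncard_nbr (G : SimpleGraph V) (v : V) : (G.neighborSet v).ncard = dg G v := by
  classical
  unfold dg
  rw [← Set.ncard_coe_finset]
  congr 1
  ext w
  simp

end proof

section general

open Pool.Agent.Helper52.DT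

theorem detour_iff_ML {V : Type} (G : SimpleGraph V) {m : ℕ} (hm : 1 ≤ m) (hne : (ML G m).Nonempty)
    (hmax : ML G (m + 1) = ∅) (l : List V) : IsDetour G l ↔ l ∈ ML G m := by
  obtain ⟨l0, h0⟩ := hne
  constructor
  · rintro ⟨⟨g1, g2, g3⟩, g4⟩
    refine ⟨g2, g3, le_antisymm (length_le hmax g2 g3) ?_⟩
    have := g4 l0 ⟨?_, h0.1, h0.2.1⟩
    · rwa [h0.2.2] at this
    · rintro rfl
      have := h0.2.2
      simp only [List.length_nil] at this
      omega
  · rintro ⟨g1, g2, g3⟩
    refine ⟨⟨?_, g1, g2⟩, ?_⟩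
    · rintro rfl
      simp only [List.length_nil] at g3
      omega
    · rintro l' ⟨_, g5, g6⟩
      rw [g3]; exact length_le hmax g5 g6

theorem N_eq {V : Type} [Fintype V] (G : SimpleGraph V) {m : ℕ} (hm : 2 ≤ m)
    (hne : (ML G m).Nonempty) (hmax : ML G (m + 1) = ∅) : N G = (RL G m).card := by
  classical
  rw [← classes_eq G hm]
  unfold N
  congr 1
  ext q
  constructor
  · rintro ⟨l, hl, rfl⟩
    exact ⟨l, (detour_iff_ML G (by omega) hne hmax l).1 hl, rfl⟩
  · rintro ⟨l, hl, rfl⟩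
    exact ⟨l, (detour_iff_ML G (by omega) hne hmax l).2 hl, rfl⟩

theorem odd_of_f {V : Type} [Fintype V] {G : SimpleGraph V} {m : ℕ} (h : f G m ≠ 0) :
    Odd (RL G m).card := by
  unfold f at h
  rw [← Nat.not_even_iff_odd]
  intro h'
  exact h ((ZMod.natCast_eq_zero_iff_even).2 h')

theorem f_of_odd {V : Type} [Fintype V] {G : SimpleGraph V} {m : ℕ} (h : Odd (RL G m).card) :
    f G m ≠ 0 := by
  unfold f
  rw [Ne, ZMod.natCast_eq_zero_iff_even, Nat.not_even_iff_odd]
  exact h

/-- a graph with the required properties -/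
theorem mem_odd {n k m : ℕ} (hm : 2 ≤ m) (G : SimpleGraph (Fin n)) (hG : Ex k G)
    (hf : f G m ≠ 0) (hmax : ML G (m + 1) = ∅) :
    (RL G m).card ∈ oddValues k n := by
  classical
  have hodd := odd_of_f hf
  have hne : (ML G m).Nonempty := by
    have h0 : 0 < (RL G m).card := hodd.pos
    obtain ⟨l, hl⟩ := Finset.card_pos.1 h0
    exact ⟨l, ((mem_RL _ _ _).1 hl).1⟩
  obtain ⟨h1, h2, v, h3⟩ := hG
  refine ⟨G, h1, ⟨fun v => ?_, v, ?_⟩, N_eq G hm hne hmax, hodd⟩
  · rw [ncard_nbr]; exact h2 v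
  · rw [ncard_nbr]; exact h3

theorem far (n k k' : ℕ) (hk : 1 ≤ k) (h3 : k + 3 ≤ k') (h200 : 200 ≤ k')
    (hne : (oddValues k' n).Nonempty) : (oddValues k n).Nonempty ∧ b k n < b k' n := by
  classical
  obtain ⟨G, hconn, ⟨hδ, v0, hv0⟩, hNG, hodd⟩ := Nat.sInf_mem hne
  have hdg : ∀ v, k' ≤ dg G v := fun v => by rw [← ncard_nbr]; exact hδ v
  have hbk : b k' n = N G := hNG.symm
  have : Nonempty (Fin n) := ⟨v0⟩
  obtain ⟨m, hm1, hmne, hmax⟩ := exists_order G
  have hm : 2 ≤ m := by
    -- there is an edge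
    have h1 : 0 < dg G v0 := by have := hdg v0; omega
    obtain ⟨w, hw⟩ := Finset.card_pos.1 h1
    rw [Finset.mem_filter] at hw
    by_contra hc
    have hm' : m = 1 := by omega
    subst hm'
    have h2 : [v0, w] ∈ ML G (1 + 1) := by
      refine ⟨?_, ?_, rfl⟩
      · simpa using hw.2.ne
      · simpa using hw.2
    rw [hmax] at h2
    exact h2
  have hN := N_eq G hm hmne hmax
  have hoddR : Odd (RL G m).card := by rw [← hN, hNG]; exact hodd
  have hf := f_of_odd hoddR
  have hmem : ∀ {k : ℕ} (G' : SimpleGraph (Fin n)) (m' : ℕ), 2 ≤ m' → Ex k G' → f G' m' ≠ 0 →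
      ML G' (m' + 1) = ∅ → (RL G' m').card < (RL G m).card →
      (oddValues k n).Nonempty ∧ b k n < b k' n := by
    intro k G' m' hm' hEx hf' hmax' hlt
    have h1 := mem_odd hm' G' hEx hf' hmax'
    refine ⟨⟨_, h1⟩, ?_⟩
    have h2 : b k n ≤ (RL G' m').card := Nat.sInf_le h1
    omega
  by_cases hk1 : k = 1
  · subst hk1
    have hn : 2 ≤ n := by
      have h1 : m ≤ Fintype.card (Fin n) := by
        obtain ⟨l, hl⟩ := hmne
        rw [← hl.2.2]
        exact hl.1.length_le_card
      rw [Fintype.card_fin] at h1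
      omega
    obtain ⟨P, hP, hP1⟩ := path_one n hn
    have h2 := two_le_RL hm hmne hmax (fun v => le_trans (by omega) (hdg v))
    refine hmem P n hn hP ?_ ?_ (by omega)
    · refine f_of_odd ?_
      rw [hP1]; exact odd_one
    · rw [Set.eq_empty_iff_forall_notMem]
      intro l hl
      have h3 := hl.1.length_le_card
      rw [hl.2.2, Fintype.card_fin] at h3
      omega
  · obtain ⟨G', hle, hEx, hf', hlt⟩ :=
      main_down G hconn hm (by omega) h3 h200 hdg hmne hmax hf
    refine hmem G' m hm hEx hf' ?_ hlt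
    exact Set.subset_eq_empty (ML_mono hle _) hmax

end general

end Pool.Agent.Helper52.DD.Orders
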